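import Pool.Agent.N541.LV.Main

/-! # Vinogradov's system in `s` pairs of variables, any `s > k`: non-diagonal solutions -/

set_option autoImplicit false

namespace Pool.Agent.Results.MP_e21eee_nt.PaucityLatticeChain

open scoped Classical in
/-- Let `k < s` and `d = s - k`. The number of non-diagonal solutions in `[1,N]` of Vinogradov's system of degree `k`
in `s` pairs of variables is `O(N^(√(4ds - 2(d-1)(d+2) + 1) + d - 1 + ε))` for every `ε > 0` (for `d = 1` the exponent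
is `√(4k+5) + ε`); hence the number of all solutions is `s! N^s + O(N^(s-1))` if `2 s (s - 1) + 2 k + 5 < 3 k²`,
and `O(N^s)` if `2 s (s - 1) + 4 < 3 k²`. -/
theorem result (s k : ℕ) (hks : k < s) :
    (∀ ε : ℝ, 0 < ε → ∃ C : ℝ, ∀ N : ℕ, 1 ≤ N →
      ((((Fintype.piFinset fun _ : Fin s => Finset.Icc 1 N) ×ˢ
          (Fintype.piFinset fun _ : Fin s => Finset.Icc 1 N)).filter
          (fun p : (Fin s → ℕ) × (Fin s → ℕ) =>
            (∀ j : Fin k, ∑ i : Fin s, p.1 i ^ (j.val + 1) = ∑ i : Fin s, p.2 i ^ (j.val + 1)) ∧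
            ¬ ∃ σ : Equiv.Perm (Fin s), p.2 = p.1 ∘ σ)).card : ℝ)
        ≤ C * (N : ℝ) ^
          (Real.sqrt (4 * ((s : ℝ) - k) * s - 2 * ((s : ℝ) - k - 1) * ((s : ℝ) - k + 2) + 1)
            + ((s : ℝ) - k - 1) + ε)) ∧
    (2 * s * (s - 1) + 2 * k + 5 < 3 * k ^ 2 → ∃ C : ℝ, ∀ N : ℕ, 1 ≤ N →
      |((((Fintype.piFinset fun _ : Fin s => Finset.Icc 1 N) ×ˢ
          (Fintype.piFinset fun _ : Fin s => Finset.Icc 1 N)).filter
          (fun p : (Fin s → ℕ) × (Fin s → ℕ) =>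
            ∀ j : Fin k, ∑ i : Fin s, p.1 i ^ (j.val + 1) = ∑ i : Fin s, p.2 i ^ (j.val + 1))).card : ℝ)
          - (s.factorial : ℝ) * (N : ℝ) ^ s| ≤ C * (N : ℝ) ^ (s - 1)) ∧
    (2 * s * (s - 1) + 4 < 3 * k ^ 2 → ∃ C : ℝ, ∀ N : ℕ, 1 ≤ N →
      ((((Fintype.piFinset fun _ : Fin s => Finset.Icc 1 N) ×ˢ
          (Fintype.piFinset fun _ : Fin s => Finset.Icc 1 N)).filter
          (fun p : (Fin s → ℕ) × (Fin s → ℕ) =>
            ∀ j : Fin k, ∑ i : Fin s, p.1 i ^ (j.val + 1) = ∑ i : Fin s, p.2 i ^ (j.val + 1))).card : ℝ)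
        ≤ C * (N : ℝ) ^ s) := by
  refine ⟨fun ε hε => ?_, fun h => ?_, fun h => ?_⟩
  · obtain ⟨C, -, hC⟩ := Pool.Agent.N541.LV.nondiag Pool.Agent.N541.LV.core Pool.Agent.N541.LV.pol
      Pool.Agent.N541.LV.seqm s k hks ε hε
    refine ⟨C, fun N hN => ?_⟩
    have h1 := hC N hN
    rw [Pool.Agent.W89.VP.VN, Pool.Agent.W89.VP.VS, Finset.filter_filter] at h1
    have e : 4 * Pool.Agent.N541.LV.nu k ((s : ℝ) - k) + 1 =
        4 * ((s : ℝ) - k) * s - 2 * ((s : ℝ) - k - 1) * ((s : ℝ) - k + 2) + 1 := by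
      unfold Pool.Agent.N541.LV.nu
      ring
    rw [e] at h1
    convert h1 using 1
  · obtain ⟨d, rfl⟩ : ∃ d, s = k + d := ⟨s - k, by omega⟩
    obtain ⟨e, rfl⟩ : ∃ e, d = e + 1 := ⟨d - 1, by omega⟩
    have h' : 2 * (e + 1) ^ 2 + 4 * (e + 1) * k + 5 < k ^ 2 + 2 * (e + 1) := by
      have h0 : k + (e + 1) - 1 = k + e := by omega
      rw [h0] at h
      nlinarith
    obtain ⟨C, hC⟩ := Pool.Agent.N541.LV.asym Pool.Agent.N541.LV.core Pool.Agent.N541.LV.pol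
      Pool.Agent.N541.LV.seqm k (e + 1) (by omega) h'
    refine ⟨C, fun N hN => ?_⟩
    have h2 := hC N hN
    rw [Pool.Agent.W89.VP.VS] at h2
    convert h2 using 1
  · obtain ⟨d, rfl⟩ : ∃ d, s = k + d := ⟨s - k, by omega⟩
    obtain ⟨e, rfl⟩ : ∃ e, d = e + 1 := ⟨d - 1, by omega⟩
    have h' : 2 * (e + 1) ^ 2 + 4 * (e + 1) * k + 4 < k ^ 2 + 2 * k + 2 * (e + 1) := by
      have h0 : k + (e + 1) - 1 = k + e := by omega
      rw [h0] at h
      nlinarith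
    obtain ⟨C, hC⟩ := Pool.Agent.N541.LV.upper Pool.Agent.N541.LV.core Pool.Agent.N541.LV.pol
      Pool.Agent.N541.LV.seqm k (e + 1) (by omega) h'
    refine ⟨C, fun N hN => ?_⟩
    have h2 := hC N hN
    rw [Pool.Agent.W89.VP.VS] at h2
    convert h2 using 1

end Pool.Agent.Results.MP_e21eee_nt.PaucityLatticeChain
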